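import Mathlib
import Pool.Agent.H116.ParentTree

/-!
# Domination number versus lower irredundance number in trees

For every `k` there is a tree `T` with `ir(T) ≤ 2k + 2` and `γ(T) ≥ 3k + 2`.  Hence the ratio
`γ(T)/ir(T)` of trees comes arbitrarily close to `3/2` (or exceeds it), and `5/4` is not its
maximum.
-/

namespace Pool.Agent.Results.MP_180bcc_co.RatioThreeHalves

open SimpleGraph Pool.Agent.H116.ParentTree

section defs

variable {V : Type} (G : SimpleGraph V)

/-- Closed neighbourhood. -/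
def Nc (s : V) : Set V := {u | u = s ∨ G.Adj s u}

/-- Private neighbours of `s` with respect to `S`. -/
def PN (s : V) (S : Set V) : Set V := {u | u ∈ Nc G s ∧ ∀ t ∈ S, t ≠ s → u ∉ Nc G t}

/-- Irredundant sets. -/
def Irr (S : Set V) : Prop := ∀ s ∈ S, (PN G s S).Nonempty

/-- Maximal irredundant sets. -/
def MaxIrr (S : Set V) : Prop := Irr G S ∧ ∀ S', S ⊂ S' → ¬ Irr G S'

/-- The lower irredundance number. -/
noncomputable def ir : ℕ := sInf {n | ∃ S : Set V, MaxIrr G S ∧ S.ncard = n}

/-- Dominating sets. -/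
def Dominating (D : Set V) : Prop := ∀ v, ∃ d ∈ D, v ∈ Nc G d

/-- The domination number. -/
noncomputable def gamma : ℕ := sInf {n | ∃ D : Set V, Dominating G D ∧ D.ncard = n}

end defs

/-- The vertices of the tree `T_k`. -/
inductive Vx (k : ℕ) : Type
  | p (i : Fin (k + 1)) (j : Fin 6)
  | c (i : Fin k)
  deriving DecidableEq, Fintype

open Vx

/-- The parent function. -/
def par (k : ℕ) : Vx k → Vx k
  | p i 0 => if h : i.val = 0 then p i 0 else c ⟨i.val - 1, by have := i.2; omega⟩
  | p i 1 => p i 0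
  | p i 2 => p i 0
  | p i 3 => p i 1
  | p i 4 => p i 2
  | p i 5 => p i 3
  | c i => p i.castSucc 1

def rank (k : ℕ) : Vx k → ℕ
  | p i 0 => 10 * i.val
  | p i 1 => 10 * i.val + 1
  | p i 2 => 10 * i.val + 1
  | p i 3 => 10 * i.val + 2
  | p i 4 => 10 * i.val + 2
  | p i 5 => 10 * i.val + 3
  | c i => 10 * i.val + 2

/-- The tree `T_k`. -/
def TT (k : ℕ) : SimpleGraph (Vx k) := ofParent (par k)

theorem TT_isTree (k : ℕ) : (TT k).IsTree := by
  apply isTree (par k) (p 0 0) (rank k)
  · intro v hv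
    cases v with
    | p i j =>
      fin_cases j
      · have hi : i.val ≠ 0 := by
          intro h
          apply hv
          have : i = 0 := Fin.ext h
          rw [this]
          rfl
        show rank k (par k (p i 0)) < rank k (p i 0)
        simp only [par, hi, dif_neg, not_false_eq_true, rank]
        omega
      all_goals simp [par, rank]
    | c i => simp [par, rank]
  · simp [par]

theorem adj_iff (k : ℕ) (u v : Vx k) : (TT k).Adj u v ↔ u ≠ v ∧ (par k u = v ∨ par k v = u) :=
  Iff.rfl

/-- The maximal irredundant set. -/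
def SS (k : ℕ) : Set (Vx k) := {v | ∃ i, v = p i 0 ∨ v = p i 1}

theorem nc2 {k : ℕ} (t : Vx k) (i : Fin (k + 1)) (h : p i 2 ∈ Nc (TT k) t) :
    t = p i 0 ∨ t = p i 2 ∨ t = p i 4 := by
  rcases h with h | h
  · right; left; exact h.symm
  · rw [adj_iff] at h
    obtain ⟨_, h | h⟩ := h
    · right; right
      cases t with
      | p i' j =>
        fin_cases j
        · simp only [Fin.zero_eta, par] at h
          split at h <;> simp at h
        all_goals simp [par] at h
        all_goals simp [h]
      | c i' => simp [par] at h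
    · left
      simpa [par] using h.symm

theorem nc3 {k : ℕ} (t : Vx k) (i : Fin (k + 1)) (h : p i 3 ∈ Nc (TT k) t) :
    t = p i 1 ∨ t = p i 3 ∨ t = p i 5 := by
  rcases h with h | h
  · right; left; exact h.symm
  · rw [adj_iff] at h
    obtain ⟨_, h | h⟩ := h
    · right; right
      cases t with
      | p i' j =>
        fin_cases j
        · simp only [Fin.zero_eta, par] at h
          split at h <;> simp at h
        all_goals simp [par] at h
        all_goals simp [h]
      | c i' => simp [par] at h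
    · left
      simpa [par] using h.symm

theorem nc4 {k : ℕ} (t : Vx k) (i : Fin (k + 1)) (h : p i 4 ∈ Nc (TT k) t) :
    t = p i 2 ∨ t = p i 4 := by
  rcases h with h | h
  · right; exact h.symm
  · rw [adj_iff] at h
    obtain ⟨_, h | h⟩ := h
    · exfalso
      cases t with
      | p i' j =>
        fin_cases j
        · simp only [Fin.zero_eta, par] at h
          split at h <;> simp at h
        all_goals simp [par] at h
      | c i' => simp [par] at h
    · left
      simpa [par] using h.symm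

theorem nc5 {k : ℕ} (t : Vx k) (i : Fin (k + 1)) (h : p i 5 ∈ Nc (TT k) t) :
    t = p i 3 ∨ t = p i 5 := by
  rcases h with h | h
  · right; exact h.symm
  · rw [adj_iff] at h
    obtain ⟨_, h | h⟩ := h
    · exfalso
      cases t with
      | p i' j =>
        fin_cases j
        · simp only [Fin.zero_eta, par] at h
          split at h <;> simp at h
        all_goals simp [par] at h
      | c i' => simp [par] at h
    · left
      simpa [par] using h.symm

theorem ncc {k : ℕ} (t : Vx k) (i : Fin k) (h : c i ∈ Nc (TT k) t) :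
    t = c i ∨ t = p i.castSucc 1 ∨ t = p i.succ 0 := by
  rcases h with h | h
  · left; exact h.symm
  · rw [adj_iff] at h
    obtain ⟨_, h | h⟩ := h
    · right; right
      cases t with
      | p i' j =>
        fin_cases j
        · simp only [Fin.zero_eta, par] at h
          split at h
          · simp at h
          · rename_i hne
            simp only [c.injEq] at h
            have : i' = i.succ := by
              apply Fin.ext
              have := congrArg Fin.val h
              simp only [Fin.val_succ] at this ⊢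
              omega
            rw [this]
            rfl
        all_goals simp [par] at h
      | c i' => simp [par] at h
    · right; left
      simpa [par] using h.symm

theorem adj_c_left (k : ℕ) (i : Fin k) : (TT k).Adj (p i.castSucc 1) (c i) := by
  rw [adj_iff]; simp [par]

theorem adj_c_right (k : ℕ) (i : Fin k) : (TT k).Adj (p i.succ 0) (c i) := by
  rw [adj_iff]; simp [par]

/-- neighbours of `p i 0`. -/
theorem nbr0 {k : ℕ} (i : Fin (k + 1)) (u : Vx k) (h : u ∈ Nc (TT k) (p i 0)) :
    u = p i 0 ∨ u = p i 1 ∨ u = p i 2 ∨ ∃ m : Fin k, i = m.succ ∧ u = c m := by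
  rcases h with h | h
  · left; exact h
  · rw [adj_iff] at h
    obtain ⟨hne, h | h⟩ := h
    · simp only [par] at h
      split at h
      · exact absurd h hne
      · rename_i hi
        right; right; right
        exact ⟨⟨i.val - 1, by have := i.2; omega⟩, Fin.ext (by simp; omega), h.symm⟩
    · cases u with
      | p i' j =>
        fin_cases j
        · simp only [Fin.zero_eta, par] at h
          split at h
          · exact absurd h.symm hne
          · simp at h
        all_goals simp [par] at h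
        all_goals simp [h]
      | c i' => simp [par] at h

theorem nbr1 {k : ℕ} (i : Fin (k + 1)) (u : Vx k) (h : u ∈ Nc (TT k) (p i 1)) :
    u = p i 0 ∨ u = p i 1 ∨ u = p i 3 ∨ ∃ m : Fin k, i = m.castSucc ∧ u = c m := by
  rcases h with h | h
  · right; left; exact h
  · rw [adj_iff] at h
    obtain ⟨hne, h | h⟩ := h
    · left
      simpa [par] using h.symm
    · cases u with
      | p i' j =>
        fin_cases j
        · simp only [Fin.zero_eta, par] at h
          split at h <;> simp at h
        all_goals simp [par] at h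
        all_goals simp [h]
      | c i' =>
        simp [par] at h
        right; right; right
        exact ⟨i', h.symm, rfl⟩

theorem adj01 (k : ℕ) (i : Fin (k + 1)) : (TT k).Adj (p i 0) (p i 1) := by
  rw [adj_iff]; simp [par]

theorem adj02 (k : ℕ) (i : Fin (k + 1)) : (TT k).Adj (p i 0) (p i 2) := by
  rw [adj_iff]; simp [par]

theorem adj13 (k : ℕ) (i : Fin (k + 1)) : (TT k).Adj (p i 1) (p i 3) := by
  rw [adj_iff]; simp [par]

theorem adj24 (k : ℕ) (i : Fin (k + 1)) : (TT k).Adj (p i 2) (p i 4) := by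
  rw [adj_iff]; simp [par]

theorem adj35 (k : ℕ) (i : Fin (k + 1)) : (TT k).Adj (p i 3) (p i 5) := by
  rw [adj_iff]; simp [par]

theorem SS_maxIrr (k : ℕ) : MaxIrr (TT k) (SS k) := by
  constructor
  · rintro s ⟨i, rfl | rfl⟩
    · refine ⟨p i 2, Or.inr (adj02 k i), ?_⟩
      rintro t ⟨i', ht⟩ hne hmem
      rcases nc2 t i hmem with h | h | h
      · exact hne h
      · rcases ht with rfl | rfl <;> simp at h
      · rcases ht with rfl | rfl <;> simp at h
    · refine ⟨p i 3, Or.inr (adj13 k i), ?_⟩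
      rintro t ⟨i', ht⟩ hne hmem
      rcases nc3 t i hmem with h | h | h
      · exact hne h
      · rcases ht with rfl | rfl <;> simp at h
      · rcases ht with rfl | rfl <;> simp at h
  · intro S' hSS' hirr
    obtain ⟨v, hvS', hvS⟩ := Set.exists_of_ssubset hSS'
    have h0 : ∀ i, p i 0 ∈ S' := fun i => hSS'.1 ⟨i, Or.inl rfl⟩
    have h1 : ∀ i, p i 1 ∈ S' := fun i => hSS'.1 ⟨i, Or.inr rfl⟩
    -- annihilating `p i 0`
    have kill0 : ∀ i v, v ∈ S' → v ≠ p i 0 → p i 2 ∈ Nc (TT k) v → False := by
      intro i v hv hne hmem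
      obtain ⟨u, hu1, hu2⟩ := hirr (p i 0) (h0 i)
      rcases nbr0 i u hu1 with rfl | rfl | rfl | ⟨m, rfl, rfl⟩
      · exact hu2 (p i 1) (h1 i) (by simp) (Or.inr (adj01 k i).symm)
      · exact hu2 (p i 1) (h1 i) (by simp) (Or.inl rfl)
      · exact hu2 v hv hne hmem
      · exact hu2 (p m.castSucc 1) (h1 _) (by simp) (Or.inr (adj_c_left k m))
    have kill1 : ∀ i v, v ∈ S' → v ≠ p i 1 → p i 3 ∈ Nc (TT k) v → False := by
      intro i v hv hne hmem
      obtain ⟨u, hu1, hu2⟩ := hirr (p i 1) (h1 i)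
      rcases nbr1 i u hu1 with rfl | rfl | rfl | ⟨m, rfl, rfl⟩
      · exact hu2 (p i 0) (h0 i) (by simp) (Or.inl rfl)
      · exact hu2 (p i 0) (h0 i) (by simp) (Or.inr (adj01 k i))
      · exact hu2 v hv hne hmem
      · exact hu2 (p m.succ 0) (h0 _) (by simp) (Or.inr (adj_c_right k m))
    cases v with
    | p i j =>
      fin_cases j
      · exact hvS ⟨i, Or.inl rfl⟩
      · exact hvS ⟨i, Or.inr rfl⟩
      · exact kill0 i (p i 2) hvS' (by simp) (Or.inl rfl)
      · exact kill1 i (p i 3) hvS' (by simp) (Or.inl rfl)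
      · exact kill0 i (p i 4) hvS' (by simp) (Or.inr (adj24 k i).symm)
      · exact kill1 i (p i 5) hvS' (by simp) (Or.inr (adj35 k i).symm)
    | c m =>
      obtain ⟨u, hu1, hu2⟩ := hirr (c m) hvS'
      have hu : c m ∈ Nc (TT k) u := by
        rcases hu1 with h | h
        · exact Or.inl h.symm
        · exact Or.inr h.symm
      rcases ncc u m hu with rfl | rfl | rfl
      · exact hu2 (p m.castSucc 1) (h1 _) (by simp) (Or.inr (adj_c_left k m))
      · exact hu2 (p m.castSucc 1) (h1 _) (by simp) (Or.inl rfl)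
      · exact hu2 (p m.succ 0) (h0 _) (by simp) (Or.inl rfl)

theorem ir_le (k : ℕ) : ir (TT k) ≤ 2 * (k + 1) := by
  have h1 : ir (TT k) ≤ (SS k).ncard := Nat.sInf_le ⟨SS k, SS_maxIrr k, rfl⟩
  have h2 : (SS k).ncard ≤ 2 * (k + 1) := by
    have hsub : SS k ⊆ Set.range (fun q : Fin (k + 1) × Fin 2 =>
        if q.2 = 0 then (p q.1 0 : Vx k) else p q.1 1) := by
      rintro v ⟨i, rfl | rfl⟩
      · exact ⟨(i, 0), by simp⟩
      · exact ⟨(i, 1), by simp⟩
    refine le_trans (Set.ncard_le_ncard hsub (Set.toFinite _)) ?_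
    have h3 := Set.ncard_le_encard (Set.range (fun q : Fin (k + 1) × Fin 2 =>
        if q.2 = 0 then (p q.1 0 : Vx k) else p q.1 1))
    rw [← Set.image_univ]
    refine le_trans (Set.ncard_image_le (Set.toFinite _)) ?_
    rw [Set.ncard_univ]
    simp [Nat.card_eq_fintype_card]
    omega
  exact le_trans h1 h2

/-- Each member of a packing is assigned the vertices of its closed neighbourhood. -/
def owner (k : ℕ) : Vx k → Vx k
  | p i 0 => if h : i.val = 0 then p i 0 else c ⟨i.val - 1, by have := i.2; omega⟩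
  | p i 1 => if h : i.val < k then c ⟨i.val, h⟩ else p i 1
  | p i 2 => p i 4
  | p i 3 => p i 5
  | p i 4 => p i 4
  | p i 5 => p i 5
  | c i => c i

/-- The packing. -/
def pk (k : ℕ) : (Fin (k + 1) ⊕ Fin (k + 1)) ⊕ Fin k → Vx k
  | Sum.inl (Sum.inl i) => p i 4
  | Sum.inl (Sum.inr i) => p i 5
  | Sum.inr i => c i

theorem pk_inj (k : ℕ) : Function.Injective (pk k) := by
  rintro ((i | i) | i) ((j | j) | j) h <;> simp [pk] at h <;> simp [h]

theorem le_gamma (k : ℕ) : 3 * k + 2 ≤ gamma (TT k) := by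
  have hne : {n | ∃ D : Set (Vx k), Dominating (TT k) D ∧ D.ncard = n}.Nonempty :=
    ⟨_, Set.univ, fun v => ⟨v, trivial, Or.inl rfl⟩, rfl⟩
  obtain ⟨D, hD, hcard⟩ := Nat.sInf_mem hne
  unfold gamma
  rw [← hcard]
  have hsub : Set.range (pk k) ⊆ owner k '' D := by
    rintro _ ⟨((i | i) | i), rfl⟩
    · obtain ⟨d, hd, hmem⟩ := hD (p i 4)
      refine ⟨d, hd, ?_⟩
      rcases nc4 d i hmem with rfl | rfl <;> rfl
    · obtain ⟨d, hd, hmem⟩ := hD (p i 5)
      refine ⟨d, hd, ?_⟩
      rcases nc5 d i hmem with rfl | rfl <;> rfl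
    · obtain ⟨d, hd, hmem⟩ := hD (c i)
      refine ⟨d, hd, ?_⟩
      rcases ncc d i hmem with rfl | rfl | rfl
      · rfl
      · show owner k (p i.castSucc 1) = c i
        have : i.castSucc.val < k := i.2
        simp [owner]
      · show owner k (p i.succ 0) = c i
        simp [owner]
  have h1 : (Set.range (pk k)).ncard = 3 * k + 2 := by
    rw [← Set.image_univ, Set.ncard_image_of_injective _ (pk_inj k), Set.ncard_univ]
    simp [Nat.card_eq_fintype_card]
    omega
  have h2 := Set.ncard_le_ncard hsub (Set.toFinite _)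
  have h3 : (owner k '' D).ncard ≤ D.ncard := Set.ncard_image_le (Set.toFinite _)
  omega

theorem ir_pos (k : ℕ) : 0 < ir (TT k) := by
  have hne : {n | ∃ S : Set (Vx k), MaxIrr (TT k) S ∧ S.ncard = n}.Nonempty :=
    ⟨_, SS k, SS_maxIrr k, rfl⟩
  obtain ⟨S, hS, hcard⟩ := Nat.sInf_mem hne
  unfold ir
  rw [← hcard, Set.ncard_pos]
  by_contra hemp
  rw [Set.not_nonempty_iff_eq_empty] at hemp
  subst hemp
  apply hS.2 {p 0 0}
  · rw [Set.ssubset_iff_subset_ne]
    refine ⟨Set.empty_subset _, ?_⟩
    intro h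
    have : (p 0 0 : Vx k) ∈ (∅ : Set (Vx k)) := by rw [h]; rfl
    exact this
  · intro s hs
    refine ⟨s, Or.inl rfl, ?_⟩
    intro t ht hts
    exact absurd (ht.trans hs.symm) hts

/-- The set of all ratios `γ(T)/ir(T)` of finite trees. -/
def Ratios : Set ℝ :=
  {q | ∃ (V : Type) (_ : Finite V) (T : SimpleGraph V), T.IsTree ∧
    q = (gamma T : ℝ) / (ir T : ℝ)}

/-- **Main result.**  For every `k` there is a tree `T` with `ir(T) ≤ 2k + 2` and
`γ(T) ≥ 3k + 2`; so for every `ε > 0` some tree has `γ(T)/ir(T) > 3/2 - ε`, and `5/4` is not an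
upper bound of the ratios (hence not their maximum). -/
theorem result :
    (∀ k : ℕ, ∃ (V : Type) (_ : Finite V) (T : SimpleGraph V), T.IsTree ∧
      0 < ir T ∧ ir T ≤ 2 * k + 2 ∧ 3 * k + 2 ≤ gamma T) ∧
    (∀ ε : ℝ, 0 < ε → ∃ q ∈ Ratios, 3 / 2 - ε < q) ∧
    ¬ IsGreatest Ratios (5 / 4) := by
  have h1 : ∀ k : ℕ, ∃ (V : Type) (_ : Finite V) (T : SimpleGraph V), T.IsTree ∧
      0 < ir T ∧ ir T ≤ 2 * k + 2 ∧ 3 * k + 2 ≤ gamma T := by
    intro k
    refine ⟨Vx k, inferInstance, TT k, TT_isTree k, ir_pos k, ?_, le_gamma k⟩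
    have := ir_le k
    omega
  have h2 : ∀ ε : ℝ, 0 < ε → ∃ q ∈ Ratios, 3 / 2 - ε < q := by
    intro ε hε
    obtain ⟨k, hk⟩ := exists_nat_gt (1 / ε)
    obtain ⟨V, hV, T, hT, hpos, hir, hga⟩ := h1 k
    refine ⟨_, ⟨V, hV, T, hT, rfl⟩, ?_⟩
    have hposR : (0 : ℝ) < ir T := by exact_mod_cast hpos
    have hirR : (ir T : ℝ) ≤ 2 * k + 2 := by exact_mod_cast hir
    have hgaR : (3 * k + 2 : ℝ) ≤ gamma T := by exact_mod_cast hga
    rw [lt_div_iff₀ hposR]
    have hk' : 1 < ε * k := by
      rw [div_lt_iff₀ hε] at hk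
      linarith
    have hk0 : (0 : ℝ) ≤ k := Nat.cast_nonneg k
    by_cases hcase : 3 / 2 - ε ≤ 0
    · have : (3 / 2 - ε) * (ir T : ℝ) ≤ 0 :=
        mul_nonpos_of_nonpos_of_nonneg hcase hposR.le
      linarith
    · push Not at hcase
      have : (3 / 2 - ε) * (ir T : ℝ) ≤ (3 / 2 - ε) * (2 * k + 2) :=
        mul_le_mul_of_nonneg_left hirR hcase.le
      nlinarith
  refine ⟨h1, h2, ?_⟩
  intro hgr
  obtain ⟨q, hq, hlt⟩ := h2 (1 / 4) (by norm_num)
  have := hgr.2 hq
  linarith

end Pool.Agent.Results.MP_180bcc_co.RatioThreeHalves
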